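import Pool.Agent.H354_OP.MainJ

/-!
# Planar-critical graphs: a bound that is polylogarithmic in the inverse excess of the average
degree

There is an absolute constant `d` such that for every `m` there is a `C` such that every
`m`-planar-critical graph with `n` non-isolated vertices and at least `(1 + 1/q) n` edges is
`k`-planar for every `k ≥ C (⌊log₂ q⌋ + 1) ^ d`. The drawings are those of the posed problem.
-/

set_option autoImplicit false

namespace Pool.Agent.Results.MP_0dbcb7_co.AvgDegLog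

/-- There is a constant `d` such that for all `m` there is a constant `C` such that every finite
graph that has no drawing with at most `m` crossings per edge, but gets one after deleting any
single edge, and in which the number of edges is at least `1 + 1/q` times the number of vertices
that are not isolated, has a drawing with at most `k` crossings per edge, for every
`k ≥ C (⌊log₂ q⌋ + 1) ^ d`. -/
theorem result :
    ∃ d : ℕ, ∀ m : ℕ, ∃ C : ℕ, ∀ (V : Type) [Fintype V] (G : SimpleGraph V)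
      (P : ℕ → SimpleGraph V → Prop),
      P = (fun (m : ℕ) (H : SimpleGraph V) =>
        ∃ (pos : V → ℝ × ℝ) (γ : Sym2 V → ℝ → ℝ × ℝ),
          Function.Injective pos ∧
          (∀ u v : V, H.Adj u v →
            ((γ s(u, v) 0 = pos u ∧ γ s(u, v) 1 = pos v) ∨
             (γ s(u, v) 0 = pos v ∧ γ s(u, v) 1 = pos u))) ∧
          (∀ e ∈ H.edgeSet, ContinuousOn (γ e) (Set.Icc (0 : ℝ) 1)) ∧
          (∀ e ∈ H.edgeSet, Set.InjOn (γ e) (Set.Icc (0 : ℝ) 1)) ∧
          (∀ e ∈ H.edgeSet, ∀ t : ℝ, t ∈ Set.Ioo (0 : ℝ) 1 →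
            ∀ w : V, γ e t ≠ pos w) ∧
          (∀ e ∈ H.edgeSet,
            {q : Sym2 V × (ℝ × ℝ) | q.1 ∈ H.edgeSet ∧ q.1 ≠ e ∧
              q.2 ∈ γ e '' Set.Ioo (0 : ℝ) 1 ∧
              q.2 ∈ γ q.1 '' Set.Ioo (0 : ℝ) 1}.encard
              ≤ (m : ℕ∞))) →
      ¬ P m G →
      (∀ e ∈ G.edgeSet, P m (G.deleteEdges {e})) →
      ∀ q : ℕ, (q + 1) * {v : V | ∃ w : V, G.Adj v w}.ncard ≤ q * G.edgeSet.ncard →
      ∀ k : ℕ, C * (Nat.log 2 q + 1) ^ d ≤ k → P k G := by
  classical
  obtain ⟨d, hd⟩ := Pool.Agent.H354_OP.main_avglog3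
  refine ⟨d, fun m => ?_⟩
  obtain ⟨C, hC⟩ := hd m
  refine ⟨C, ?_⟩
  intro V _ G P hP hnot hcrit q hs k hk
  have hPK : ∀ (j : ℕ) (H : SimpleGraph V), P j H ↔ Pool.Agent.H354_OP.KDraw j H := by
    intro j H
    rw [hP]
    exact Pool.Agent.H354_OP.fdraw_iff j H
  rw [hPK]
  refine hC V G (fun e he => (hPK m _).mp (hcrit e he)) q (Or.inr ?_) k hk
  have h1 : (Finset.univ.filter (fun v => (Pool.Agent.H354_OP.nb G v).card ≠ 0)).card =
      {v : V | ∃ w : V, G.Adj v w}.ncard := by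
    rw [← Set.ncard_coe_finset]
    congr 1
    ext v
    rw [Finset.mem_coe, Finset.mem_filter, Set.mem_ofPred_eq]
    constructor
    · rintro ⟨-, h⟩
      obtain ⟨w, hw⟩ := Finset.card_pos.mp (Nat.pos_of_ne_zero h)
      exact ⟨w, Pool.Agent.H354_OP.mem_nb.mp hw⟩
    · rintro ⟨w, hw⟩
      exact ⟨Finset.mem_univ v, (Finset.card_pos.mpr ⟨w, Pool.Agent.H354_OP.mem_nb.mpr hw⟩).ne'⟩
  have h2 : ∑ v, (Pool.Agent.H354_OP.nb G v).card = 2 * G.edgeSet.ncard := by
    have h3 := G.sum_degrees_eq_twice_card_edges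
    rw [Set.ncard_eq_toFinset_card', ← SimpleGraph.edgeFinset, ← h3]
    refine Finset.sum_congr rfl fun v _ => ?_
    rw [← SimpleGraph.card_neighborFinset_eq_degree]
    congr 1
    ext y
    rw [Pool.Agent.H354_OP.mem_nb, SimpleGraph.mem_neighborFinset]
  rw [h1, h2]
  calc 2 * (q + 1) * {v : V | ∃ w : V, G.Adj v w}.ncard
      = 2 * ((q + 1) * {v : V | ∃ w : V, G.Adj v w}.ncard) := by ring
    _ ≤ 2 * (q * G.edgeSet.ncard) := Nat.mul_le_mul_left _ hs
    _ = q * (2 * G.edgeSet.ncard) := by ring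

end Pool.Agent.Results.MP_0dbcb7_co.AvgDegLog
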