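import Pool.Agent.H354_OP.MainJ

/-!
# Planar-critical graphs: a bound that is polylogarithmic in the number of vertices of degree at
least three

There is an absolute constant `d` such that for every `m` there is a `C` such that every
`m`-planar-critical graph with `b` vertices of degree at least three is `k`-planar for every
`k ≥ C (⌊log₂ b⌋ + 1) ^ d`. The drawings are those of the posed problem.
-/

set_option autoImplicit false

namespace Pool.Agent.Results.MP_0dbcb7_co.BranchCount

/-- There is a constant `d` such that for all `m` there is a constant `C` such that every finite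
graph that has no drawing with at most `m` crossings per edge, but gets one after deleting any
single edge, and that has `b` vertices of degree at least three, has a drawing with at most `k`
crossings per edge, for every `k ≥ C (⌊log₂ b⌋ + 1) ^ d`. -/
theorem result :
    ∃ d : ℕ, ∀ m : ℕ, ∃ C : ℕ, ∀ (V : Type) [Fintype V] (G : SimpleGraph V)
      (P : ℕ → SimpleGraph V → Prop),
      P = (fun (m : ℕ) (H : SimpleGraph V) =>
        ∃ (pos : V → ℝ × ℝ) (γ : Sym2 V → ℝ → ℝ × ℝ),
          Function.Injective pos ∧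
          (∀ u v : V, H.Adj u v →
            ((γ s(u, v) 0 = pos u ∧ γ s(u, v) 1 = pos v) ∨
             (γ s(u, v) 0 = pos v ∧ γ s(u, v) 1 = pos u))) ∧
          (∀ e ∈ H.edgeSet, ContinuousOn (γ e) (Set.Icc (0 : ℝ) 1)) ∧
          (∀ e ∈ H.edgeSet, Set.InjOn (γ e) (Set.Icc (0 : ℝ) 1)) ∧
          (∀ e ∈ H.edgeSet, ∀ t : ℝ, t ∈ Set.Ioo (0 : ℝ) 1 →
            ∀ w : V, γ e t ≠ pos w) ∧
          (∀ e ∈ H.edgeSet,
            {q : Sym2 V × (ℝ × ℝ) | q.1 ∈ H.edgeSet ∧ q.1 ≠ e ∧
              q.2 ∈ γ e '' Set.Ioo (0 : ℝ) 1 ∧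
              q.2 ∈ γ q.1 '' Set.Ioo (0 : ℝ) 1}.encard
              ≤ (m : ℕ∞))) →
      ¬ P m G →
      (∀ e ∈ G.edgeSet, P m (G.deleteEdges {e})) →
      ∀ k : ℕ, C * (Nat.log 2 {v : V | 3 ≤ {w : V | G.Adj v w}.ncard}.ncard + 1) ^ d ≤ k →
        P k G := by
  classical
  obtain ⟨d, hd⟩ := Pool.Agent.H354_OP.main_avglog3
  refine ⟨d, fun m => ?_⟩
  obtain ⟨C, hC⟩ := hd m
  refine ⟨C, ?_⟩
  intro V _ G P hP hnot hcrit k hk
  have hPK : ∀ (j : ℕ) (H : SimpleGraph V), P j H ↔ Pool.Agent.H354_OP.KDraw j H := by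
    intro j H
    rw [hP]
    exact Pool.Agent.H354_OP.fdraw_iff j H
  rw [hPK]
  refine hC V G (fun e he => (hPK m _).mp (hcrit e he)) _ (Or.inl (le_of_eq ?_)) k hk
  rw [← Set.ncard_coe_finset]
  congr 1
  ext v
  rw [Finset.mem_coe, Finset.mem_filter, Set.mem_ofPred_eq]
  have h1 : (Pool.Agent.H354_OP.nb G v).card = {w : V | G.Adj v w}.ncard := by
    rw [← Set.ncard_coe_finset]
    congr 1
    ext w
    rw [Finset.mem_coe, Pool.Agent.H354_OP.mem_nb, Set.mem_ofPred_eq]
  rw [h1]
  exact ⟨fun h => h.2, fun h => ⟨Finset.mem_univ v, h⟩⟩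

end Pool.Agent.Results.MP_0dbcb7_co.BranchCount
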