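import Pool.Agent.H354_OP.Cyc2

/-!
# Planar-critical graphs that have a cycle with few vertices of degree at least three

Every `m`-planar-critical graph that has a cycle with at most `y` vertices of degree at least three
and with average degree at most `D` is `8 (m+1) (D+2m+4) (y+1)`-planar. The drawings are those of the
posed problem.
-/

set_option autoImplicit false

namespace Pool.Agent.Results.MP_0dbcb7_co.CycleBound

/-- Let `G` be a finite graph that has no drawing with at most `m` crossings per edge, but gets one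
after deleting any single edge. Suppose that `G` has a cycle `c` with at most `y` vertices of degree
at least three, and that the average of the degrees in `G` of the vertices of `c` is at most `D`.
Then `G` has a drawing with at most `8 (m + 1) (D + 2 m + 4) (y + 1)` crossings per edge. -/
theorem result :
    ∀ (m D y : ℕ) (V : Type) [Fintype V] (G : SimpleGraph V)
      (P : ℕ → SimpleGraph V → Prop),
      P = (fun (m : ℕ) (H : SimpleGraph V) =>
        ∃ (pos : V → ℝ × ℝ) (γ : Sym2 V → ℝ → ℝ × ℝ),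
          Function.Injective pos ∧
          (∀ u v : V, H.Adj u v →
            ((γ s(u, v) 0 = pos u ∧ γ s(u, v) 1 = pos v) ∨
             (γ s(u, v) 0 = pos v ∧ γ s(u, v) 1 = pos u))) ∧
          (∀ e ∈ H.edgeSet, ContinuousOn (γ e) (Set.Icc (0 : ℝ) 1)) ∧
          (∀ e ∈ H.edgeSet, Set.InjOn (γ e) (Set.Icc (0 : ℝ) 1)) ∧
          (∀ e ∈ H.edgeSet, ∀ t : ℝ, t ∈ Set.Ioo (0 : ℝ) 1 →
            ∀ w : V, γ e t ≠ pos w) ∧
          (∀ e ∈ H.edgeSet,
            {q : Sym2 V × (ℝ × ℝ) | q.1 ∈ H.edgeSet ∧ q.1 ≠ e ∧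
              q.2 ∈ γ e '' Set.Ioo (0 : ℝ) 1 ∧
              q.2 ∈ γ q.1 '' Set.Ioo (0 : ℝ) 1}.encard
              ≤ (m : ℕ∞))) →
      ¬ P m G →
      (∀ e ∈ G.edgeSet, P m (G.deleteEdges {e})) →
      ∀ (x : V) (c : G.Walk x x), c.IsCycle →
      {u : V | 3 ≤ {w : V | G.Adj u w}.ncard ∧ u ∈ c.support}.ncard ≤ y →
      ∑ i ∈ Finset.range c.length, {w : V | G.Adj (c.getVert i) w}.ncard ≤ D * c.length →
      ∀ k : ℕ, 8 * (m + 1) * (D + 2 * m + 4) * (y + 1) ≤ k → P k G := by
  classical
  intro m D y V _ G P hP hnot hcrit x c hc hcy hsum k hk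
  have hPK : ∀ (j : ℕ) (H : SimpleGraph V), P j H ↔ Pool.Agent.H354_OP.KDraw j H := by
    intro j H
    rw [hP]
    exact Pool.Agent.H354_OP.fdraw_iff j H
  have hnb : ∀ v : V, {w : V | G.Adj v w}.ncard = (Pool.Agent.H354_OP.nb G v).card := by
    intro v
    rw [← Set.ncard_coe_finset]
    congr 1
    ext w
    rw [Finset.mem_coe, Pool.Agent.H354_OP.mem_nb, Set.mem_ofPred_eq]
  rw [hPK]
  refine Pool.Agent.H354_OP.cycle_avg (D := D) (y := y) (fun e he => (hPK m _).mp (hcrit e he))
    c hc (le_trans (le_of_eq ?_) hcy) (by simpa only [hnb] using hsum) hk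
  rw [← Set.ncard_coe_finset]
  congr 1
  ext u
  rw [Finset.mem_coe, Finset.mem_filter, Set.mem_ofPred_eq, hnb]
  exact ⟨fun h => h.2, fun h => ⟨Finset.mem_univ u, h⟩⟩

end Pool.Agent.Results.MP_0dbcb7_co.CycleBound
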