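import Pool.Agent.H354_OP.MainM

/-!
# Planar-critical graphs without a fixed complete minor: a bound that is polylogarithmic in the
degrees above which two vertices are joined by few disjoint paths

There is an absolute constant `d` such that for all `m`, `t` and `p` there is a `C` such that every
`m`-planar-critical graph without `K_t` minor in which no two vertices of degree more than `Δ` are
joined by `p` internally disjoint paths of length at least two is `k`-planar for every
`k ≥ C (⌊log₂ Δ⌋ + 1) ^ d`. The drawings are those of the posed problem.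
-/

set_option autoImplicit false

namespace Pool.Agent.Results.MP_0dbcb7_co.FewPaths

/-- There is a constant `d` such that for all `m`, `t` and `p` there is a constant `C` such that
every finite graph that has no drawing with at most `m` crossings per edge, but gets one after
deleting any single edge, that has no `K_t` minor (no `t` pairwise disjoint and pairwise adjacent
connected sets of vertices) and in which no two vertices of degree more than `Δ` are joined by `p`
internally disjoint paths of length at least two, has a drawing with at most `k` crossings per edge,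
for every `k ≥ C (⌊log₂ Δ⌋ + 1) ^ d`. -/
theorem result :
    ∃ d : ℕ, ∀ m t p : ℕ, ∃ C : ℕ, ∀ (V : Type) [Fintype V] (G : SimpleGraph V)
      (P : ℕ → SimpleGraph V → Prop),
      P = (fun (m : ℕ) (H : SimpleGraph V) =>
        ∃ (pos : V → ℝ × ℝ) (γ : Sym2 V → ℝ → ℝ × ℝ),
          Function.Injective pos ∧
          (∀ u v : V, H.Adj u v →
            ((γ s(u, v) 0 = pos u ∧ γ s(u, v) 1 = pos v) ∨
             (γ s(u, v) 0 = pos v ∧ γ s(u, v) 1 = pos u))) ∧
          (∀ e ∈ H.edgeSet, ContinuousOn (γ e) (Set.Icc (0 : ℝ) 1)) ∧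
          (∀ e ∈ H.edgeSet, Set.InjOn (γ e) (Set.Icc (0 : ℝ) 1)) ∧
          (∀ e ∈ H.edgeSet, ∀ t : ℝ, t ∈ Set.Ioo (0 : ℝ) 1 →
            ∀ w : V, γ e t ≠ pos w) ∧
          (∀ e ∈ H.edgeSet,
            {q : Sym2 V × (ℝ × ℝ) | q.1 ∈ H.edgeSet ∧ q.1 ≠ e ∧
              q.2 ∈ γ e '' Set.Ioo (0 : ℝ) 1 ∧
              q.2 ∈ γ q.1 '' Set.Ioo (0 : ℝ) 1}.encard
              ≤ (m : ℕ∞))) →
      ¬ P m G →
      (∀ e ∈ G.edgeSet, P m (G.deleteEdges {e})) →
      (¬ ∃ f : Fin t → Set V, (∀ i, (G.induce (f i)).Connected) ∧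
        ∀ i j, i ≠ j → Disjoint (f i) (f j) ∧ ∃ a ∈ f i, ∃ b ∈ f j, G.Adj a b) →
      ∀ Δ : ℕ, (∀ x y : V, x ≠ y → Δ < {w : V | G.Adj x w}.ncard → Δ < {w : V | G.Adj y w}.ncard →
        ¬ ∃ Q : Fin p → G.Walk x y, (∀ i, (Q i).IsPath ∧ 2 ≤ (Q i).length) ∧
          ∀ i j, i ≠ j → ∀ v ∈ (Q i).support, v ∈ (Q j).support → v = x ∨ v = y) →
      ∀ k : ℕ, C * (Nat.log 2 Δ + 1) ^ d ≤ k → P k G := by
  classical
  obtain ⟨d, hd⟩ := Pool.Agent.H354_OP.main_few2
  refine ⟨d, fun m t p => ?_⟩
  obtain ⟨C, hC⟩ := hd m t p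
  refine ⟨C, ?_⟩
  intro V _ G P hP hnot hcrit hmin Δ hΔ k hk
  have hPK : ∀ (j : ℕ) (H : SimpleGraph V), P j H ↔ Pool.Agent.H354_OP.KDraw j H := by
    intro j H
    rw [hP]
    exact Pool.Agent.H354_OP.fdraw_iff j H
  have hnb : ∀ v : V, {w : V | G.Adj v w}.ncard = (Pool.Agent.H354_OP.nb G v).card := by
    intro v
    rw [← Set.ncard_coe_finset]
    congr 1
    ext w
    rw [Finset.mem_coe, Pool.Agent.H354_OP.mem_nb, Set.mem_ofPred_eq]
  rw [hPK]
  refine hC V G (fun e he => (hPK m _).mp (hcrit e he)) ?_ Δ ?_ k hk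
  · rintro ⟨f, h1, h2⟩
    refine hmin ⟨fun i => (f i : Set V), fun i => ?_, fun i j hij => ?_⟩
    · obtain ⟨⟨x, hx⟩, h3, -⟩ := h1 i
      have : Nonempty (f i : Set V) := ⟨⟨x, hx⟩⟩
      constructor
      intro a b
      obtain ⟨w, hw⟩ := h3 a.1 a.2 b.1 b.2
      exact ⟨w.induce (f i : Set V) hw⟩
    · exact ⟨Finset.disjoint_coe.mpr (h2 i j hij).1, (h2 i j hij).2⟩
  · intro x y hxy hx hy f hdis hf
    refine hΔ x y hxy (by rw [hnb]; exact hx) (by rw [hnb]; exact hy) ?_
    have hch : ∀ i : Fin p, ∃ Q : G.Walk x y, (Q.IsPath ∧ 2 ≤ Q.length) ∧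
        ∀ v ∈ Q.support, v = x ∨ v = y ∨ v ∈ f i.castSucc := by
      intro i
      obtain ⟨-, h1, h2, h3, ⟨a, ha, hax⟩, b, hb, hby⟩ := hf i.castSucc
      obtain ⟨w, hw1, hw2, -⟩ := h1.path ha hb
      refine ⟨SimpleGraph.Walk.cons hax.symm (w.concat hby), ⟨?_, ?_⟩, ?_⟩
      · rw [SimpleGraph.Walk.cons_isPath_iff, SimpleGraph.Walk.isPath_def,
          SimpleGraph.Walk.support_concat, List.nodup_append]
        refine ⟨⟨hw1.support_nodup, List.nodup_singleton _, ?_⟩, ?_⟩
        · intro u hu v hv huv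
          rw [List.mem_singleton] at hv
          rw [huv, hv] at hu
          exact h3 (hw2 y hu)
        · intro h
          rw [List.mem_append, List.mem_singleton] at h
          rcases h with h | h
          · exact h2 (hw2 x h)
          · exact hxy h
      · rw [SimpleGraph.Walk.length_cons, SimpleGraph.Walk.length_concat]
        omega
      · intro v hv
        rw [SimpleGraph.Walk.support_cons, List.mem_cons, SimpleGraph.Walk.support_concat,
          List.mem_append, List.mem_singleton] at hv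
        rcases hv with hv | hv | hv
        · exact Or.inl hv
        · exact Or.inr (Or.inr (hw2 v hv))
        · exact Or.inr (Or.inl hv)
    choose Q hQ1 hQ2 using hch
    refine ⟨Q, hQ1, ?_⟩
    intro i j hij v hvi hvj
    rcases hQ2 i v hvi with h | h | h
    · exact Or.inl h
    · exact Or.inr h
    · rcases hQ2 j v hvj with h' | h' | h'
      · exact Or.inl h'
      · exact Or.inr h'
      · exact absurd h' (Finset.disjoint_left.mp (hdis _ _ fun h => hij
          (Fin.castSucc_injective p h)) h)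

end Pool.Agent.Results.MP_0dbcb7_co.FewPaths
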